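import Pool.Agent.N869.ZE.A.Stm
import Pool.Agent.N856.JL.Stm
import Pool.Agent.N869.GK.L.Stm

/-!
# Project GK (helper869), engine: 2-Selmer groups of twists, coloured sets of primes over `ℚ`

`lb p` is the label of the prime `p`, that is, the class of `p` modulo squares at the bad places; `M` is `8`
times the product of the odd bad primes. The primes with label `0` are those for which `-1` and all the
prime divisors of `M` are squares modulo `p`.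
-/

set_option autoImplicit false
set_option linter.unusedVariables false

open scoped Classical

namespace Pool.Agent.N869.GK

open Finset
open Pool.Agent.Y703.CX (sm la jj XX eL zz kk S_SIE)
open Pool.Agent.Y703.CQ (nr sg)
open Pool.Agent.N973.ND (uu)
open Pool.Agent.N916.GB (Po SA S_BIL)
open Pool.Agent.N856.JL (S_MEQ)
open Pool.Agent.N869.QT.L (prs ext Lc Fam)
open Pool.Agent.N869.QT.G (sys exC pr Dep)
open Pool.Agent.N869.ZE (cnt lc BoxA AsyE OkP mrg S_ASYA)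
open Pool.Agent.N869.ZE.A (PairK)

/-! ### The labels -/

/-- the labels with value zero -/
structure LabZ {r : ℕ} (M : ℕ) (lb : ℕ → Gr r) : Prop where
  pos : 0 < M
  eight : 8 ∣ M
  zero : ∀ p : ℕ, p.Prime → ¬ p ∣ M → (lb p = 0 ↔ uu p = 0 ∧ ∀ l ∈ M.primeFactors, nr p l = 0)

/-- the hypotheses on the labels -/
structure LabOk {r : ℕ} (D : Par r) (M : ℕ) (lb : ℕ → Gr r) : Prop extends LabZ M lb where
  uu : ∀ p : ℕ, p.Prime → ¬ p ∣ M → Pool.Agent.N973.ND.uu p = dot D.em (lb p)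
  surj : ∀ π : Gr r, ∃ a : ℕ, a.Coprime M ∧ ∀ p : ℕ, p.Prime → p % M = a % M → lb p = π

/-! ### The boxes -/

/-- the labels of the large primes of every colour with respect to the small primes are not degenerate,
and there are many large primes of every colour and label -/
def NdG {r : ℕ} {Q : Type} (lb : ℕ → Gr r) (K : ℕ) (γ : ℕ → Q) (S₀ S₁ : Finset ℕ) : Prop :=
  ∀ q : Q, (∀ w : ℕ → ZMod 2, (∃ u ∈ S₀, w u ≠ 0) →
    ∃ p ∈ S₁, γ p = q ∧ lb p = 0 ∧ ∑ u ∈ S₀, w u * nr p u ≠ 0) ∧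
    ∀ π : Gr r, K * (S₀.card + Nat.log 2 S₁.card + 1) ≤
      (S₁.filter fun p => γ p = q ∧ lb p = π).card

/-- the condition on `P`: the prime divisors of `M` do not occur, the labels of every system have sum
zero; `lv` determines the labels -/
def OkG {r : ℕ} {I Q V : Type} (M : ℕ) (lb : ℕ → Gr r) (E : I → Finset Q) (lv : ℕ → V)
    (P : (Q × V → ℕ) → Prop) : Prop :=
  (∀ p q : ℕ, Po p → Po q → lv p = lv q → lb p = lb q) ∧
  ∀ (γ : ℕ → Q) (S : Finset ℕ), (∀ p ∈ S, Po p) → P (cnt (lc γ lv) S) →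
    (∀ p ∈ S, ¬ p ∣ M) ∧ ∀ a, ∑ p ∈ sys γ E S a, lb p = 0

/-- GK-BOXG -/
def S_BOXG : Prop := S_SUB → ∀ (r : ℕ) (D : Par r) (M : ℕ) (lb : ℕ → Gr r), LabOk D M lb →
  ∀ (ρ : ℕ) (I Q : Type) [Fintype I] [Fintype Q] (E : I → Finset Q), Fam E →
  ∀ (ε : ℝ) (K : ℕ), LAEG D ρ E ε K → ∃ B : ℕ, ∀ (V : Type) [Fintype V] (lv : ℕ → V)
  (P : (Q × V → ℕ) → Prop), OkG M lb E lv P → ∀ γ : ℕ → Q,
  BoxA PairK (lc γ lv) P (NdG lb K γ) (fun S => ∀ a, Gk D lb nr ρ (sys γ E S a))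
    (kap ρ ^ Fintype.card I) ε B

/-! ### Degenerate labels -/

/-- the sets of primes with label zero for which the product of the primes in `W` is a square -/
noncomputable def HDG {r : ℕ} (M : ℕ) (lb : ℕ → Gr r) (W : Finset ℕ) (T : ℕ) : Finset (Finset ℕ) :=
  (range (T + 1)).powerset.filter fun S => (∀ p ∈ S, p.Prime ∧ ¬ p ∣ M ∧ lb p = 0 ∧ p ∉ W ∧
    ∑ u ∈ W, nr p u = 0) ∧ ∏ p ∈ S, p ≤ T

/-- GK-HALG: the logarithmic density for a nontrivial quadratic character. -/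
def S_HALG : Prop := ∀ (r : ℕ) (M : ℕ) (lb : ℕ → Gr r), LabZ M lb → ∃ C : ℝ, 1 ≤ C ∧
  ∀ (W : Finset ℕ) (T : ℕ), W.Nonempty → (∀ u ∈ W, Po u ∧ ¬ u ∣ M) → 2 ≤ T →
  ∑ S ∈ HDG M lb W T, (1 : ℝ) / ((∏ p ∈ S, p : ℕ) : ℝ) ≤
    C * (1 + Real.log ((∏ u ∈ W, u : ℕ) : ℝ)) *
      (Real.log T) ^ (1 / 2 ^ (M.primeFactors.card + 2) : ℝ)

/-- GK-CLSG: the reciprocals of the primes whose label is not zero. -/
def S_CLSG : Prop := S_MEQ → ∀ (r : ℕ) (M : ℕ) (lb : ℕ → Gr r), LabZ M lb → ∃ C : ℝ,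
  ∀ y : ℕ, 3 ≤ y → |∑ p ∈ (range (y + 1)).filter (fun p => p.Prime ∧ ¬ p ∣ M ∧ lb p = 0),
    (1 : ℝ) / p - 1 / 2 ^ (M.primeFactors.card + 1) * Real.log (Real.log y)| ≤ C

/-- the weight of a set `W` -/
noncomputable def gWG {r : ℕ} (M : ℕ) (lb : ℕ → Gr r) (W : Finset ℕ) (p : ℕ) : ℝ :=
  if ¬ p ∣ M ∧ lb p = 0 ∧ ¬ (p ∉ W ∧ ∑ u ∈ W, nr p u = 0) then 1 / 3 else 1

/-- the weight of the primes in a class -/
noncomputable def gAG (M a : ℕ) (p : ℕ) : ℝ := if p % M = a % M then 1 / 3 else 1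

/-- GK-ESTG: the weighted sieve. -/
def S_ESTG : Prop := S_HALG → S_CLSG → S_MEQ → ∀ (r : ℕ) (M : ℕ) (lb : ℕ → Gr r), LabZ M lb →
  ∃ C κ : ℝ, 1 ≤ C ∧ 0 < κ ∧ κ ≤ 1 ∧ ∀ (q : ℝ) (Y : ℕ), 1 ≤ q → 3 ≤ Y →
    (∀ W : Finset ℕ, W.Nonempty → (∀ u ∈ W, Po u ∧ ¬ u ∣ M) →
      ∑ S ∈ SA Y, ∏ p ∈ S, (1 - (1 - gWG M lb W p) / q) ≤
        C * (1 + Real.log ((∏ u ∈ W, u : ℕ) : ℝ)) * ((Y : ℝ) * (Real.log Y) ^ (-(κ / q) : ℝ))) ∧
    ∀ a < M, a.Coprime M → ∑ S ∈ SA Y, ∏ p ∈ S, (1 - (1 - gAG M a p) / q) ≤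
        C * ((Y : ℝ) * (Real.log Y) ^ (-(κ / q) : ℝ))

/-- GK-RAREG: the labels are degenerate rarely. -/
def S_RAREG : Prop := S_ESTG → S_HALG → S_CLSG → S_MEQ → ∀ (r : ℕ) (D : Par r) (M : ℕ)
  (lb : ℕ → Gr r), LabOk D M lb → ∀ (Q : Type) [Fintype Q] [Nonempty Q] (K : ℕ) (ε : ℝ), 0 < ε →
  ∃ X₀ : ℕ, ∀ X : ℕ, X₀ ≤ X →
  ∑ S ∈ (SA X).filter (fun S => S.card ≤ kk X ∧ ∀ p ∈ S, ¬ p ∣ M),
    pr S (fun γ : ℕ → Q => ¬ NdG lb K γ (sm (zz X) S) (la (zz X) S)) ≤ ε * X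

/-! ### The averages -/

/-- the condition on the systems: the labels have sum zero; `tv v` is the label of the primes with
`lv p = v` -/
def AdG {r : ℕ} {V : Type} [Fintype V] (tv : V → Gr r) (m : V → ℕ) : Prop :=
  ∀ j : Fin r, ∑ v, (m v : ZMod 2) * tv v j = 0

/-- GK-ASYG: the averages. -/
def S_ASYG : Prop := ∀ (r : ℕ) (D : Par r), Ok D → ∀ e : ℕ, Rk D e → ∀ ρ : ℕ, ρ % 2 = e % 2 →
  ∀ (M : ℕ) (lb : ℕ → Gr r), LabOk D M lb → ∀ (V : Type) [Fintype V] (lv : ℕ → V) (tv : V → Gr r)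
  (Bad : Set V), (∀ p, Po p → p ∣ M → lv p ∈ Bad) → (∀ p, Po p → lb p = tv (lv p)) →
  ∀ (I Q : Type) [Fintype I] [Fintype Q] [Nonempty Q] (E : I → Finset Q), Fam E →
  AsyE SA (fun S => Gk D lb nr ρ S) (kap ρ) lv (AdG tv) Bad E

end Pool.Agent.N869.GK
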