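import Pool.Agent.N869.GK.Stm

/-!
# Project GK (helper869): different ranks for the different systems

The same statements as before for a prescribed rank `ρ a` of every system `a`.
-/

set_option autoImplicit false
set_option linter.unusedVariables false

open scoped Classical

namespace Pool.Agent.N869.GK.H

open Finset
open Pool.Agent.Y703.CX (sm la jj XX eL zz kk)
open Pool.Agent.Y703.CQ (nr sg)
open Pool.Agent.N916.GB (Po SA)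
open Pool.Agent.N869.QT.L (prs ext Lc Fam)
open Pool.Agent.N869.QT.G (sys exC pr Dep)
open Pool.Agent.N869.ZE (cnt lc BoxA OkP mrg EE)
open Pool.Agent.N869.ZE.A (PairK)
open Pool.Agent.N869.GK

/-- the probability that the system `a` has rank `ρ a`, for all `a`, is close to `∏ kap (ρ a)` -/
def LAEH {r : ℕ} (D : Par r) {I Q : Type} [Fintype I] (ρ : I → ℕ) (E : I → Finset Q) (ε : ℝ)
    (K : ℕ) : Prop :=
  ∀ (U J : Type) [Fintype U] [Fintype J] [LinearOrder J] (W : I → Finset U) (g : J → Q)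
  (lU : U → Gr r) (lJ : J → Gr r) (A : U → U → ZMod 2) (B : U → J → ZMod 2),
  HypG D K W E g lU lJ A B →
  |((univ.filter fun α : prs J → ZMod 2 =>
      ∀ a, Gk D (Sum.elim lU lJ) (Nm D lU lJ A B α) (ρ a) (TT W E g a)).card : ℝ) /
      2 ^ (prs J).card - ∏ a, kap (ρ a)| ≤ ε

/-- GK-LAH: the law. -/
def S_LAH : Prop := ∀ (r : ℕ) (D : Par r), Ok D → ∀ e : ℕ, Rk D e →
  ∀ (I Q : Type) [Fintype I] [Fintype Q] (E : I → Finset Q), Fam E →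
  ∀ ρ : I → ℕ, (∀ a, ρ a % 2 = e % 2) → ∀ ε : ℝ, 0 < ε → ∃ K : ℕ, LAEH D ρ E ε K

/-- GK-INVUH: the moments determine the law (several variables with fixed parity). -/
def S_INVUH : Prop := ∀ (I : Type) [Fintype I] (e : ℕ) (ρ : I → ℕ) (ε : ℝ), 0 < ε →
  ∃ (m₀ : ℕ) (δ : ℝ), 0 < δ ∧
  ∀ (Ω Ω' : Type) [Fintype Ω] [Nonempty Ω] [Fintype Ω'] [Nonempty Ω'] (k : Ω → I → ℕ)
  (k' : Ω' → I → ℕ), (∀ ω a, k ω a % 2 = e % 2) → (∀ ω a, k' ω a % 2 = e % 2) →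
  (∀ m : I → ℕ, (∀ a, m a ≤ m₀) →
    |(∑ ω, ∏ a, (2 : ℝ) ^ (m a * k ω a)) / Fintype.card Ω - ∏ a, mom (m a)| ≤ δ) →
  (∀ m : I → ℕ, (∀ a, m a ≤ m₀) →
    |(∑ ω, ∏ a, (2 : ℝ) ^ (m a * k' ω a)) / Fintype.card Ω' - ∏ a, mom (m a)| ≤ δ) →
  |((univ.filter fun ω : Ω => ∀ a, k ω a = ρ a).card : ℝ) / Fintype.card Ω -
    ((univ.filter fun ω : Ω' => ∀ a, k' ω a = ρ a).card : ℝ) / Fintype.card Ω'| ≤ ε

/-- GK-INVH: the law from the moments. -/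
def S_INVH : Prop := ∀ (I : Type) [Fintype I] (e : ℕ) (ρ : I → ℕ), (∀ a, ρ a % 2 = e % 2) →
  ∀ ε : ℝ, 0 < ε → ∃ (m₀ : ℕ) (δ : ℝ), 0 < δ ∧
  ∀ (Ω : Type) [Fintype Ω] [Nonempty Ω] (k : Ω → I → ℕ), (∀ ω a, k ω a % 2 = e % 2) →
  (∀ m : I → ℕ, (∀ a, m a ≤ m₀) →
    |(∑ ω, ∏ a, (2 : ℝ) ^ (m a * k ω a)) / Fintype.card Ω - ∏ a, mom (m a)| ≤ δ) →
  |((univ.filter fun ω : Ω => ∀ a, k ω a = ρ a).card : ℝ) / Fintype.card Ω -
    ∏ a, kap (ρ a)| ≤ ε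

/-- GK-INVAH -/
def S_INVAH : Prop := S_INVUH → S_REF → S_KAP → S_INVH

/-- GK-LAAH: assembly of the linear algebra. -/
def S_LAAH : Prop := S_MOM → S_INVH → S_PAR → S_ALTR → S_AUTO → S_TOR → S_KC → S_SUB → S_LAH

/-- GK-BOXH: the box. -/
def S_BOXH : Prop := S_SUB → ∀ (r : ℕ) (D : Par r) (M : ℕ) (lb : ℕ → Gr r), LabOk D M lb →
  ∀ (I Q : Type) [Fintype I] [Fintype Q] (ρ : I → ℕ) (E : I → Finset Q), Fam E →
  ∀ (ε : ℝ) (K : ℕ), LAEH D ρ E ε K → ∃ B : ℕ, ∀ (V : Type) [Fintype V] (lv : ℕ → V)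
  (P : (Q × V → ℕ) → Prop), OkG M lb E lv P → ∀ γ : ℕ → Q,
  BoxA PairK (lc γ lv) P (NdG lb K γ) (fun S => ∀ a, Gk D lb nr (ρ a) (sys γ E S a))
    (∏ a, kap (ρ a)) ε B

/-! ### The second moment -/

/-- the statement on the averages for the family `E` of sets of colours and a property `Gd a` of every
system -/
def AsyE {R : Type} (SA : ℕ → Finset (Finset R)) {I Q : Type} [Fintype I] [Fintype Q] [Nonempty Q]
    (Gd : I → Finset R → Prop) (c : ℝ) {V : Type} (lv : R → V) (Ad : (V → ℕ) → Prop) (Bad : Set V)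
    (E : I → Finset Q) : Prop :=
  ∀ P : (Q × V → ℕ) → Prop, OkP E Ad Bad P → ∀ ε : ℝ, 0 < ε → ∃ X₀ : ℕ, ∀ X : ℕ, X₀ ≤ X →
  |∑ S ∈ SA X, pr S (fun γ : R → Q => P (cnt (lc γ lv) S) ∧ ∀ a, Gd a (sys γ E S a)) -
      c * ∑ S ∈ SA X, pr S (fun γ : R → Q => P (cnt (lc γ lv) S))| ≤ ε * X

/-- the statement for almost all the sets -/
def SqE {R : Type} (SA : ℕ → Finset (Finset R)) {I Q : Type} [Fintype I] [Fintype Q] [Nonempty Q]
    (Gd : I → Finset R → Prop) (c : ℝ) {V : Type} (lv : R → V) (Ad : (V → ℕ) → Prop) (Bad : Set V)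
    (E : I → Finset Q) : Prop :=
  ∀ P : (Q × V → ℕ) → Prop, OkP E Ad Bad P → ∀ δ ε : ℝ, 0 < δ → 0 < ε → ∃ X₀ : ℕ, ∀ X : ℕ, X₀ ≤ X →
  (((SA X).filter fun S =>
    δ < |pr S (fun γ : R → Q => P (cnt (lc γ lv) S) ∧ ∀ a, Gd a (sys γ E S a)) -
      c * pr S (fun γ : R → Q => P (cnt (lc γ lv) S))|).card : ℝ) ≤ ε * X

/-- GK-SQH: the second moment. -/
def S_SQH : Prop := ∀ (R : Type) (SA : ℕ → Finset (Finset R)) (I Q : Type) [Fintype I]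
  [Fintype Q] [Nonempty Q] (Gd : I → Finset R → Prop) (c : ℝ)
  (V : Type) [Fintype V] (lv : R → V) (Ad : (V → ℕ) → Prop) (Bad : Set V) (E : I → Finset Q),
  AsyE SA (Sum.elim Gd Gd) (c * c) lv Ad Bad (EE E) →
  AsyE SA Gd c lv Ad Bad (fun a : I => E a ×ˢ (univ : Finset Q)) →
  SqE SA Gd c lv Ad Bad E

end Pool.Agent.N869.GK.H
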