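import Pool.Agent.N869.GK.StmH

/-!
# Project GK (helper869): several curves

The same statements for several curves with the same bad primes: the 2-Selmer groups of the twists of
the curves `k : C` by the same numbers. The data are `D k : Par r`, `k : C`, with the same class of `-1`
(that of `D₀`), pairwise not conjugate (`NC`). The copy `x : ι` belongs to the system of colours `c x : I` and
to the curve `κ x : C`. In the leaves about sums over decorations the data may depend on the copy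
(`D : ι → Par r`).
-/

set_option autoImplicit false
set_option linter.unusedVariables false

open scoped Classical

namespace Pool.Agent.N869.GK.M

open Finset
open Pool.Agent.Y703.CX (sm la jj XX eL zz kk)
open Pool.Agent.Y703.CQ (nr sg)
open Pool.Agent.N916.GB (Po SA)
open Pool.Agent.N869.QT.L (prs ext Lc Fam)
open Pool.Agent.N869.QT.G (sys exC pr Dep)
open Pool.Agent.N869.ZE (cnt lc BoxA OkP mrg EE)
open Pool.Agent.N869.ZE.A (PairK)
open Pool.Agent.N869.GK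

/-! ### The local matrices -/

/-- the (adjoint of the) local matrix at a prime with label `π` -/
def Mt {r : ℕ} (D : Par r) (π : Gr r) : Matrix (Fin 2) (Fin 2) (ZMod 2) :=
  !![dot D.ll π, dot D.aa π; dot D.bb π, dot D.ll π + dot D.em π]

/-- the local matrices are not conjugate -/
def NC {r : ℕ} (D D' : Par r) : Prop :=
  ¬ ∃ P : Matrix (Fin 2) (Fin 2) (ZMod 2), IsUnit P ∧ ∀ π, P * Mt D π = Mt D' π * P

/-- the hypotheses on the data of the curves -/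
structure OkM {r : ℕ} {C : Type} (D₀ : Par r) (D : C → Par r) : Prop where
  ok : ∀ k, Ok (D k)
  em : ∀ k, (D k).em = D₀.em
  nc : ∀ k k', k ≠ k' → NC (D k) (D k')

/-- GK-GENM: the local matrices generate. -/
def S_GENM : Prop := ∀ (r : ℕ) (C : Type) [Fintype C] (D₀ : Par r) (D : C → Par r), OkM D₀ D →
  ∀ S : Set (C → Matrix (Fin 2) (Fin 2) (ZMod 2)), 1 ∈ S → (∀ x ∈ S, ∀ y ∈ S, x + y ∈ S) →
    (∀ x ∈ S, ∀ y ∈ S, x * y ∈ S) → (∀ π, (fun k => Mt (D k) π) ∈ S) → ∀ M, M ∈ S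

/-! ### Stable sets -/

/-- the action of one matrix for each curve -/
def actM {ι C : Type} (κ : ι → C) (M : C → Matrix (Fin 2) (Fin 2) (ZMod 2)) (ζ : Dc ι) : Dc ι :=
  fun x => ((M (κ x)).mulVec (ζ x).1, (M (κ x)).mulVec (ζ x).2)

/-- the stable sets -/
def StbM {ι C : Type} (κ : ι → C) (Z : Finset (Dc ι)) : Prop :=
  ∀ M : C → Matrix (Fin 2) (Fin 2) (ZMod 2), ∀ ζ ∈ Z, ∀ ζ' ∈ Z, ζ + actM κ M (ζ + ζ') ∈ Z

/-- GK-PRODM: the stable sets are products of stable sets of the curves. -/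
def S_PRODM : Prop := S_UNL → S_FAM → ∀ (ι C : Type) [Fintype ι] [Fintype C] (κ : ι → C)
  (Z : Finset (Dc ι)), (MS univ Z ∧ StbM κ Z) ↔ ∃ Y : C → Finset (Dc ι),
    (∀ k, MS (cp κ k) (Y k) ∧ MS univ (rd κ k (Y k)) ∧ Stb (rd κ k (Y k))) ∧
      Z = PZ κ Y fun _ => True

/-- GK-COUNTM: the number of the stable sets. -/
def S_COUNTM : Prop := S_UNL → S_FAM → S_PRODM → S_COUNT → ∀ (ι C : Type) [Fintype ι] [Fintype C]
  (κ : ι → C), ((univ.filter fun Z : Finset (Dc ι) => MS univ Z ∧ StbM κ Z).card : ℝ) =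
    ∏ k, (4 : ℝ) ^ mc κ k * mom (mc κ k)

/-! ### The sums over decorations, data for every copy -/

section mm

variable {r : ℕ} {ι I : Type} [Fintype ι]

/-- the exponent -/
def Ex {R : Type} (D : ι → Par r) (lab : R → Gr r) (N : R → R → ZMod 2) (T : ι → Finset R)
    (s : ι → Fin 2 → Gr r) (ζ : R → Dc ι) : ZMod 2 :=
  ∑ x, ∑ i ∈ T x, om (ζ i x).2 (row (D x) lab N (T x) (s x) (fun j => (ζ j x).1) i)

/-- the local conditions at the bad places -/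
def XW {R : Type} (D : ι → Par r) (lab : R → Gr r) (T : ι → Finset R) (s : ι → Fin 2 → Gr r)
    (ζ : R → Dc ι) : Prop := ∀ x, Xl lab (T x) (s x) (fun i => (ζ i x).1) ∈ (D x).W

/-- the sum for one system and one maximal unlinked set -/
noncomputable def One {R : Type} [Fintype R] (D : ι → Par r) (lab : R → Gr r)
    (N : R → R → ZMod 2) (Z : Finset (Dc ι)) : ℝ :=
  ∑ s : ι → Fin 2 → Gr r, ∑ ζ ∈ (Fintype.piFinset fun _ : R => Z).filter (fun ζ : R → Dc ι =>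
      XW D lab (fun _ => univ) s ζ), sn (Ex D lab N (fun _ => univ) s ζ)

end mm

/-- GK-EXPM: the moments are sums over unlinked decorations. -/
def S_EXPM : Prop := ∀ (r : ℕ) (D₀ : Par r) (U J I Q ι : Type) [Fintype U] [Fintype J]
  [LinearOrder J] [Fintype ι] (D : ι → Par r) (W : I → Finset U) (E : I → Finset Q) (g : J → Q)
  (c : ι → I) (lU : U → Gr r) (lJ : J → Gr r) (A : U → U → ZMod 2) (B : U → J → ZMod 2),
  ((univ.filter fun y : (prs J → ZMod 2) × (ι → (Fin 2 → Gr r) × (U ⊕ J → V)) =>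
      ∀ x, Sol (D x) (Sum.elim lU lJ) (Nm D₀ lU lJ A B y.1) (TT W E g (c x)) (y.2 x)).card : ℝ) *
    4 ^ (∑ x, (TT W E g (c x)).card) =
  2 ^ (prs J).card * ∑ s : ι → Fin 2 → Gr r,
    ∑ ζ ∈ univ.filter (fun ζ : U ⊕ J → Dc ι => (∀ i x, i ∉ TT W E g (c x) → ζ i x = 0) ∧
      XW D (Sum.elim lU lJ) (fun x => TT W E g (c x)) s ζ ∧
      ∀ k l, k ≠ l → Qs (Aq E c (g k) ∩ Aq E c (g l)) (ζ (.inr k)) (ζ (.inr l)) = 0),
      sn (Ex D (Sum.elim lU lJ) (Nm D₀ lU lJ A B 0) (fun x => TT W E g (c x)) s ζ)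

/-- GK-SMALLM: the decorations of the small primes. -/
def S_SMALLM : Prop := S_UNL → ∀ (r : ℕ) (D₀ : Par r) (K : ℕ) (U J I Q ι : Type) [Fintype U]
  [Fintype J] [LinearOrder J] [Fintype ι] [Fintype I] [Fintype Q] (D : ι → Par r)
  (W : I → Finset U) (E : I → Finset Q) (g : J → Q) (c : ι → I) (lU : U → Gr r) (lJ : J → Gr r)
  (A : U → U → ZMod 2) (B : U → J → ZMod 2), Fam E → HypG D₀ K W E g lU lJ A B →
  ∀ Y : I → Finset (Dc ι), (∀ a, MS (cp c a) (Y a)) → ∀ (s : ι → Fin 2 → Gr r) (ζU : U → Dc ι),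
  (∀ u, ζU u ∈ Sp (univ.filter fun x => u ∈ W (c x))) →
  (∃ u, ζU u ∉ PZ c Y fun a => u ∈ W a) →
  ∑ ζ ∈ (Fintype.piFinset fun k => PZ c Y fun a => g k ∈ E a).filter (fun ζ : J → Dc ι =>
      XW D (Sum.elim lU lJ) (fun x => TT W E g (c x)) s (Sum.elim ζU ζ)),
    sn (Ex D (Sum.elim lU lJ) (Nm D₀ lU lJ A B 0) (fun x => TT W E g (c x)) s (Sum.elim ζU ζ)) = 0

/-- GK-FACTM: the product over the systems. -/
def S_FACTM : Prop := ∀ (r : ℕ) (R I ι : Type) [Fintype R] [Fintype ι] [Fintype I]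
  (D : ι → Par r) (T : I → Finset R) (c : ι → I) (lab : R → Gr r) (N : R → R → ZMod 2)
  (Y : I → Finset (Dc ι)), (∀ a, MS (cp c a) (Y a)) →
  (∑ s : ι → Fin 2 → Gr r, ∑ ζ ∈ (Fintype.piFinset fun i => PZ c Y fun a => i ∈ T a).filter
      (fun ζ : R → Dc ι => XW D lab (fun x => T (c x)) s ζ),
    sn (Ex D lab N (fun x => T (c x)) s ζ) =
  ∏ a, One (fun x : {x // c x = a} => D x.1) (fun i : {i // i ∈ T a} => lab i.1)
    (fun i j => N i.1 j.1) (rd c a (Y a))) ∧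
  ∀ a, MS univ (rd c a (Y a))

/-- GK-PAIRM: the sets that are not stable contribute little. -/
def S_PAIRM : Prop := S_UNL → S_GENM → ∀ (r : ℕ) (C : Type) [Fintype C] (D₀ : Par r)
  (D : C → Par r), OkM D₀ D → ∀ (R ι : Type) [Fintype R] [Fintype ι] (κ : ι → C)
  (lab : R → Gr r) (N : R → R → ZMod 2) (L : ℕ), Hyp1 D₀ lab N univ →
  (∀ π : Gr r, 2 * L ≤ (univ.filter fun i => lab i = π).card) →
  ∀ Z : Finset (Dc ι), MS univ Z → ¬ StbM κ Z →
  |One (fun x => D (κ x)) lab N Z| ≤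
    4 ^ (r * Fintype.card ι) * (1 / 2) ^ L * 4 ^ (Fintype.card ι * Fintype.card R)

/-- GK-VALM: the value for the stable sets. -/
def S_VALM : Prop := S_UNL → S_FAM → S_AUTO → S_TOR → S_KC → S_VAL → S_FACTM → S_PRODM →
  ∀ (r : ℕ) (C : Type) [Fintype C] (D₀ : Par r) (D : C → Par r), OkM D₀ D →
  ∀ (R ι : Type) [Fintype R] [Fintype ι] (κ : ι → C) (lab : R → Gr r) (N : R → R → ZMod 2),
  Hyp1 D₀ lab N univ → ∀ Z : Finset (Dc ι), MS univ Z → StbM κ Z →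
  One (fun x => D (κ x)) lab N Z = 4 ^ (Fintype.card ι * Fintype.card R)

/-! ### The moments -/

/-- the number of the copies of the system `a` and the curve `k` -/
noncomputable def mc2 {ι I C : Type} [Fintype ι] (c : ι → I) (κ : ι → C) (a : I) (k : C) : ℕ :=
  (univ.filter fun x => c x = a ∧ κ x = k).card

/-- GK-MOMM: the joint moments. -/
def S_MOMM : Prop := ∀ (r : ℕ) (C : Type) [Fintype C] (D₀ : Par r) (D : C → Par r), OkM D₀ D →
  ∀ (ι I Q : Type) [Fintype ι] [Fintype I] [Fintype Q] (E : I → Finset Q) (c : ι → I)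
  (κ : ι → C), Fam E → ∀ ε : ℝ, 0 < ε → ∃ K : ℕ,
  ∀ (U J : Type) [Fintype U] [Fintype J] [LinearOrder J] (W : I → Finset U) (g : J → Q)
  (lU : U → Gr r) (lJ : J → Gr r) (A : U → U → ZMod 2) (B : U → J → ZMod 2),
  HypG D₀ K W E g lU lJ A B →
  |((univ.filter fun y : (prs J → ZMod 2) × (ι → (Fin 2 → Gr r) × (U ⊕ J → V)) =>
      ∀ x, Sol (D (κ x)) (Sum.elim lU lJ) (Nm D₀ lU lJ A B y.1) (TT W E g (c x))
        (y.2 x)).card : ℝ) / 2 ^ (prs J).card -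
    ∏ a, ∏ k, (4 : ℝ) ^ mc2 c κ a k * mom (mc2 c κ a k)| ≤ ε

/-- GK-MOMAM: the joint moments from the parts. -/
def S_MOMAM : Prop := S_UNL → S_FAM → S_SPLIT → S_EXPM → S_SMALLM → S_FACTM → S_PAIRM → S_VALM →
  S_COUNTM → S_COUNT → S_AUTO → S_TOR → S_KC → S_VAL → S_PRODM → S_GENM → S_MOMM

/-! ### The law -/

/-- GK-INVUM: the moments determine the law (prescribed values and parities). -/
def S_INVUM : Prop := ∀ (I : Type) [Fintype I] (e ρ : I → ℕ) (ε : ℝ), 0 < ε →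
  ∃ (m₀ : ℕ) (δ : ℝ), 0 < δ ∧
  ∀ (Ω Ω' : Type) [Fintype Ω] [Nonempty Ω] [Fintype Ω'] [Nonempty Ω'] (k : Ω → I → ℕ)
  (k' : Ω' → I → ℕ), (∀ ω a, k ω a % 2 = e a % 2) → (∀ ω a, k' ω a % 2 = e a % 2) →
  (∀ m : I → ℕ, (∀ a, m a ≤ m₀) →
    |(∑ ω, ∏ a, (2 : ℝ) ^ (m a * k ω a)) / Fintype.card Ω - ∏ a, mom (m a)| ≤ δ) →
  (∀ m : I → ℕ, (∀ a, m a ≤ m₀) →
    |(∑ ω, ∏ a, (2 : ℝ) ^ (m a * k' ω a)) / Fintype.card Ω' - ∏ a, mom (m a)| ≤ δ) →
  |((univ.filter fun ω : Ω => ∀ a, k ω a = ρ a).card : ℝ) / Fintype.card Ω -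
    ((univ.filter fun ω : Ω' => ∀ a, k' ω a = ρ a).card : ℝ) / Fintype.card Ω'| ≤ ε

/-- GK-INVM: the law from the moments. -/
def S_INVM : Prop := ∀ (I : Type) [Fintype I] (e ρ : I → ℕ), (∀ a, ρ a % 2 = e a % 2) →
  ∀ ε : ℝ, 0 < ε → ∃ (m₀ : ℕ) (δ : ℝ), 0 < δ ∧
  ∀ (Ω : Type) [Fintype Ω] [Nonempty Ω] (k : Ω → I → ℕ), (∀ ω a, k ω a % 2 = e a % 2) →
  (∀ m : I → ℕ, (∀ a, m a ≤ m₀) →
    |(∑ ω, ∏ a, (2 : ℝ) ^ (m a * k ω a)) / Fintype.card Ω - ∏ a, mom (m a)| ≤ δ) →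
  |((univ.filter fun ω : Ω => ∀ a, k ω a = ρ a).card : ℝ) / Fintype.card Ω -
    ∏ a, kap (ρ a)| ≤ ε

/-- GK-INVAM -/
def S_INVAM : Prop := S_INVUM → S_REF → S_KAP → S_INVM

/-- the probability that the system `a` and the curve `k` have rank `ρ a k`, for all `a` and `k`, is
close to `∏ kap (ρ a k)` -/
def LAEM {r : ℕ} {C I Q : Type} [Fintype C] [Fintype I] (D₀ : Par r) (D : C → Par r)
    (ρ : I → C → ℕ) (E : I → Finset Q) (ε : ℝ) (K : ℕ) : Prop :=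
  ∀ (U J : Type) [Fintype U] [Fintype J] [LinearOrder J] (W : I → Finset U) (g : J → Q)
  (lU : U → Gr r) (lJ : J → Gr r) (A : U → U → ZMod 2) (B : U → J → ZMod 2),
  HypG D₀ K W E g lU lJ A B →
  |((univ.filter fun α : prs J → ZMod 2 =>
      ∀ a k, Gk (D k) (Sum.elim lU lJ) (Nm D₀ lU lJ A B α) (ρ a k) (TT W E g a)).card : ℝ) /
      2 ^ (prs J).card - ∏ a, ∏ k, kap (ρ a k)| ≤ ε

/-- GK-LAM: the law. -/
def S_LAM : Prop := ∀ (r : ℕ) (C : Type) [Fintype C] (D₀ : Par r) (D : C → Par r), OkM D₀ D →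
  ∀ e : C → ℕ, (∀ k, Rk (D k) (e k)) → ∀ (I Q : Type) [Fintype I] [Fintype Q]
  (E : I → Finset Q), Fam E → ∀ ρ : I → C → ℕ, (∀ a k, ρ a k % 2 = e k % 2) →
  ∀ ε : ℝ, 0 < ε → ∃ K : ℕ, LAEM D₀ D ρ E ε K

/-- GK-LAAM: assembly of the linear algebra. -/
def S_LAAM : Prop := S_MOMM → S_INVM → S_PAR → S_ALTR → S_AUTO → S_TOR → S_KC → S_SUB → S_LAM

/-- GK-BOXM: the box. -/
def S_BOXM : Prop := S_SUB → ∀ (r : ℕ) (C : Type) [Fintype C] (D₀ : Par r) (D : C → Par r)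
  (M : ℕ) (lb : ℕ → Gr r), LabOk D₀ M lb → (∀ k, (D k).em = D₀.em) →
  ∀ (I Q : Type) [Fintype I] [Fintype Q] (ρ : I → C → ℕ) (E : I → Finset Q), Fam E →
  ∀ (ε : ℝ) (K : ℕ), LAEM D₀ D ρ E ε K → ∃ B : ℕ, ∀ (V : Type) [Fintype V] (lv : ℕ → V)
  (P : (Q × V → ℕ) → Prop), OkG M lb E lv P → ∀ γ : ℕ → Q,
  BoxA PairK (lc γ lv) P (NdG lb K γ)
    (fun S => ∀ a k, Gk (D k) lb nr (ρ a k) (sys γ E S a)) (∏ a, ∏ k, kap (ρ a k)) ε B

/-! ### Conjugate data -/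

/-- GK-CJM: for the twists of one curve by numbers `c > 0` the local matrices are not conjugate (the
trace and the determinant). -/
def S_CJM : Prop := ∀ (r : ℕ) (D D' : Par r), D'.em = D.em → D'.aa = D.aa → D'.bb = D.bb →
  D'.ll ≠ D.ll → D'.ll ≠ D.ll + D.em → NC D D'

/-- GK-CJ6: conjugate local matrices come from a permutation of the roots. -/
def S_CJ6 : Prop := ∀ (r : ℕ) (D D' : Par r), D'.em = D.em → ¬ NC D D' →
  (D'.ll = D.ll ∧ D'.aa = D.aa ∧ D'.bb = D.bb) ∨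
  (D'.ll = D.ll + D.em ∧ D'.aa = D.bb ∧ D'.bb = D.aa) ∨
  (D'.ll = D.ll + D.bb ∧ D'.aa = D.aa + D.bb + D.em ∧ D'.bb = D.bb) ∨
  (D'.ll = D.ll + D.aa ∧ D'.aa = D.aa ∧ D'.bb = D.aa + D.bb + D.em) ∨
  (D'.ll = D.ll + D.em + D.bb ∧ D'.aa = D.bb ∧ D'.bb = D.aa + D.bb + D.em) ∨
  (D'.ll = D.ll + D.em + D.aa ∧ D'.aa = D.aa + D.bb + D.em ∧ D'.bb = D.aa)

end Pool.Agent.N869.GK.M
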