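import Pool.Agent.N869.GK.D.Stm
import Pool.Agent.N869.GK.StmM

/-!
# Project GK (helper869): several curves, scaling and non-conjugate data
-/

set_option autoImplicit false
set_option linter.unusedVariables false

open scoped Classical

namespace Pool.Agent.N869.GK.N

open Finset
open Pool.Agent.TH841.SH (LocC SelG)
open Pool.Agent.N869.GK
open Pool.Agent.N869.GK.D
open Pool.Agent.N869.GK.M (NC S_CJ6)

/-- GK-SCALE: scaling the roots by a square. -/
def S_SCALE : Prop := ∀ a b c s : ℤ, s ≠ 0 →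
  SelG (s ^ 2 * a) (s ^ 2 * b) (s ^ 2 * c) = SelG a b c

/-- the differences of the roots of two curves do not agree modulo squares, for any order of the
roots -/
def Unr (e e' : Fin 3 → ℤ) : Prop := ∀ σ : Equiv.Perm (Fin 3),
  ¬ ∀ i j : Fin 3, i < j → IsSquare ((e i - e j) * (e' (σ i) - e' (σ j)))

/-- the classes of the data -/
def Dt {r : ℕ} (g : Fin r → ℤ) (e : Fin 3 → ℤ) (D : Par r) : Prop :=
  D.em = ecl g (-1) ∧ D.ll = ecl g (e 0 - e 1) ∧ D.aa = ecl g ((e 0 - e 1) * (e 0 - e 2)) ∧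
    D.bb = ecl g ((e 1 - e 0) * (e 1 - e 2))

/-- GK-CLS6: the data of two curves are not conjugate. -/
def S_CLS6 : Prop := S_GEN → S_CJ6 → ∀ (b : Finset ℕ) (r : ℕ) (g : Fin r → ℤ), Gen b g →
  ∀ e e' : Fin 3 → ℤ, Crv b (e 0) (e 1) (e 2) → Crv b (e' 0) (e' 1) (e' 2) →
  ∀ D D' : Par r, Dt g e D → Dt g e' D' → Unr e e' → NC D D'

/-- GK-TWU: a twist by a positive number that is not a square. -/
def S_TWU : Prop := ∀ (e : Fin 3 → ℤ) (c c' : ℤ), e 0 ≠ e 1 → e 0 ≠ e 2 → e 1 ≠ e 2 → 0 < c →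
  0 < c' → ¬ IsSquare (c * c') → Unr (fun i => c * e i) (fun i => c' * e i)

end Pool.Agent.N869.GK.N
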