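import Pool.Agent.N869.GK.L.Stm

/-!
# Project GK (helper869): the tail of the law
-/

set_option autoImplicit false

open scoped Classical

namespace Pool.Agent.N869.GK.T

open Finset
open Pool.Agent.N869.GK

/-- GK-KTAIL: the tail of the law of the ranks of a given parity. -/
def S_KTAIL : Prop := S_KAP → ∀ e m : ℕ,
  1 - 2 / 2 ^ (m * (m + 1) / 2) ≤ ∑ j ∈ (range (m + 1)).filter (fun j => j % 2 = e % 2), kap j

end Pool.Agent.N869.GK.T
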