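import Pool.Agent.N869.GK.D.Stm
import Pool.Agent.N869.GK.StmM
import Pool.Agent.N869.GK.StmN

/-!
# Project GK (helper869): the exact law

The local conditions at the bad places form a maximal subgroup: the groups `E(ℚ_p) / 2 E(ℚ_p)` have
order `4` (`p` odd), `8` (`p = 2`), and `E(ℝ) / 2 E(ℝ)` has order `2`. So the 2-Selmer group of the twist has
exactly the order given by the model.
-/

set_option autoImplicit false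
set_option linter.unusedVariables false

open scoped Classical

namespace Pool.Agent.N869.GK.X

open Finset WeierstrassCurve
open Pool.Agent.Y703.CQ (nr)
open Pool.Agent.TH841.SH (LocC SelG)
open Pool.Agent.N869.GK
open Pool.Agent.N869.GK.D

/-! ### Local points -/

/-- the curve `y² = (x - e₁) (x - e₂) (x - e₃)` over `K` -/
def Wk {K : Type} [Field K] (e1 e2 e3 : K) : WeierstrassCurve K :=
  ⟨0, -(e1 + e2 + e3), 0, e1 * e2 + e1 * e3 + e2 * e3, -(e1 * e2 * e3)⟩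

/-- there are `N` pairs of integers that are classes of points and are different modulo squares -/
def Many (K : Type) [Field K] (N : ℕ) (e1 e2 e3 : ℤ) : Prop :=
  ∃ P : Fin N → ℤ × ℤ, (∀ i, (P i).1 ≠ 0 ∧ (P i).2 ≠ 0 ∧ LocC K e1 e2 e3 (P i).1 (P i).2) ∧
    ∀ i j, i ≠ j → ¬ (IsSquare (((P i).1 * (P j).1 : ℤ) : K) ∧
      IsSquare (((P i).2 * (P j).2 : ℤ) : K))

/-- GK-HALFK: two points with the same classes differ by twice a point. -/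
def S_HALFK : Prop := ∀ (K : Type) [Field K] [CharZero K] (e1 e2 e3 : K), e1 ≠ e2 → e1 ≠ e3 →
  e2 ≠ e3 → ∀ (x y x' y' : K) (h : (Wk e1 e2 e3).toAffine.Nonsingular x y)
  (h' : (Wk e1 e2 e3).toAffine.Nonsingular x' y'), y ≠ 0 → y' ≠ 0 →
  IsSquare ((x - e1) * (x' - e1)) → IsSquare ((x - e2) * (x' - e2)) →
  ∃ Q : (Wk e1 e2 e3).toAffine.Point, Affine.Point.some x y h - Affine.Point.some x' y' h' = Q + Q

/-- GK-TWOT: the points of order two. -/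
def S_TWOT : Prop := ∀ (K : Type) [Field K] [CharZero K] (e1 e2 e3 : K), e1 ≠ e2 → e1 ≠ e3 →
  e2 ≠ e3 → Nat.card {P : (Wk e1 e2 e3).toAffine.Point // P + P = 0} = 4

/-- GK-REPK: every class contains a point with `y ≠ 0`. -/
def S_REPK : Prop := ∀ (p : ℕ) [Fact p.Prime] (e1 e2 e3 : ℤ), e1 ≠ e2 → e1 ≠ e3 → e2 ≠ e3 →
  ∀ P : (Wk (e1 : ℚ_[p]) e2 e3).toAffine.Point, ∃ (Q : (Wk (e1 : ℚ_[p]) e2 e3).toAffine.Point)
  (x y : ℚ_[p]) (h : (Wk (e1 : ℚ_[p]) e2 e3).toAffine.Nonsingular x y), y ≠ 0 ∧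
    P + (Q + Q) = Affine.Point.some x y h

/-- GK-HRB: group theory. -/
def S_HRB : Prop := ∀ (A : Type) [AddCommGroup A] (N : ℕ), 1 ≤ N →
  (∀ x : A, (2 ^ (N + 1) : ℕ) • x = 0 → (2 ^ N : ℕ) • x = 0) → Nat.card {x : A // x + x = 0} = 4 →
  (∃ P : Fin 4 → A, ∀ i j, i ≠ j → ∀ q : A, P i - P j ≠ q + q) ∧
  ((∃ x : A, ∀ y : A, (2 ^ N : ℕ) • x ≠ (2 ^ (N + 1) : ℕ) • y) →
    ∃ P : Fin 8 → A, ∀ i j, i ≠ j → ∀ q : A, P i - P j ≠ q + q)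

/-- the point is not zero and has a coordinate `x` of norm greater than `C` -/
def Big {p : ℕ} [Fact p.Prime] {W : WeierstrassCurve ℚ_[p]} (C : ℝ) (P : W.toAffine.Point) : Prop :=
  ∃ (x y : ℚ_[p]) (h : W.toAffine.Nonsingular x y), P = Affine.Point.some x y h ∧ C < ‖x‖

/-- GK-DBL: doubling near infinity. -/
def S_DBL : Prop := ∀ (p : ℕ) [Fact p.Prime] (e1 e2 e3 : ℤ), e1 ≠ e2 → e1 ≠ e3 → e2 ≠ e3 →
  ∃ C : ℝ, 1 ≤ C ∧ ∀ (x y : ℚ_[p]) (h : (Wk (e1 : ℚ_[p]) e2 e3).toAffine.Nonsingular x y), C < ‖x‖ →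
    ∃ (x' y' : ℚ_[p]) (h' : (Wk (e1 : ℚ_[p]) e2 e3).toAffine.Nonsingular x' y'),
      Affine.Point.some x y h + Affine.Point.some x y h = Affine.Point.some x' y' h' ∧
      ‖x'‖ * ‖(4 : ℚ_[p])‖ = ‖x‖

/-- GK-DTW: doubling near the points of order two. -/
def S_DTW : Prop := ∀ (p : ℕ) [Fact p.Prime] (e1 e2 e3 : ℤ), e1 ≠ e2 → e1 ≠ e3 → e2 ≠ e3 →
  ∀ C : ℝ, ∃ ε : ℝ, 0 < ε ∧ ∀ (x y : ℚ_[p])
    (h : (Wk (e1 : ℚ_[p]) e2 e3).toAffine.Nonsingular x y), y ≠ 0 → ‖y‖ < ε →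
    Big C (Affine.Point.some x y h + Affine.Point.some x y h)

/-- GK-DIF: the difference of two close points is near infinity. -/
def S_DIF : Prop := ∀ (p : ℕ) [Fact p.Prime] (e1 e2 e3 : ℤ), e1 ≠ e2 → e1 ≠ e3 → e2 ≠ e3 →
  ∀ C ε : ℝ, 0 < ε → ∃ η : ℝ, 0 < η ∧ ∀ (x y x' y' : ℚ_[p])
    (h : (Wk (e1 : ℚ_[p]) e2 e3).toAffine.Nonsingular x y)
    (h' : (Wk (e1 : ℚ_[p]) e2 e3).toAffine.Nonsingular x' y'), ‖x‖ ≤ C → ‖x'‖ ≤ C → ε ≤ ‖y‖ →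
    ‖x - x'‖ < η → ‖y - y'‖ < η → (x, y) ≠ (x', y') →
    Big C (Affine.Point.some x y h - Affine.Point.some x' y' h')

/-- GK-TRL: translation by a small element. -/
def S_TRL : Prop := ∀ (p : ℕ) [Fact p.Prime] (e1 e2 e3 : ℤ), e1 ≠ e2 → e1 ≠ e3 → e2 ≠ e3 →
  ∀ (x y : ℚ_[p]) (h : (Wk (e1 : ℚ_[p]) e2 e3).toAffine.Nonsingular x y) (δ : ℝ), 0 < δ →
  ∃ C : ℝ, ∀ D : (Wk (e1 : ℚ_[p]) e2 e3).toAffine.Point, Big C D →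
    ∃ (x' y' : ℚ_[p]) (h' : (Wk (e1 : ℚ_[p]) e2 e3).toAffine.Nonsingular x' y'),
      Affine.Point.some x y h - D = Affine.Point.some x' y' h' ∧ ‖x' - x‖ < δ

/-- GK-TORB: the points of 2-power order are bounded. -/
def S_TORB : Prop := S_TWOT → S_DBL → S_DTW → S_DIF → ∀ (p : ℕ) [Fact p.Prime] (e1 e2 e3 : ℤ),
  e1 ≠ e2 → e1 ≠ e3 → e2 ≠ e3 → ∃ N : ℕ, 1 ≤ N ∧
  ∀ P : (Wk (e1 : ℚ_[p]) e2 e3).toAffine.Point, (2 ^ (N + 1) : ℕ) • P = 0 → (2 ^ N : ℕ) • P = 0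

/-- GK-DIVB: not all the elements are divisible by two. -/
def S_DIVB : Prop := S_DBL → S_DTW → S_DIF → S_TRL → ∀ (e1 e2 e3 : ℤ), e1 ≠ e2 → e1 ≠ e3 →
  e2 ≠ e3 → ∀ N : ℕ, (∀ P : (Wk (e1 : ℚ_[2]) e2 e3).toAffine.Point,
    (2 ^ (N + 1) : ℕ) • P = 0 → (2 ^ N : ℕ) • P = 0) →
  ∃ P : (Wk (e1 : ℚ_[2]) e2 e3).toAffine.Point, ∀ Q : (Wk (e1 : ℚ_[2]) e2 e3).toAffine.Point,
    (2 ^ N : ℕ) • P ≠ (2 ^ (N + 1) : ℕ) • Q

/-- GK-LOCN: the local groups are large. -/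
def S_LOCN : Prop := S_HALFK → S_TWOT → S_REPK → S_HRB → S_DBL → S_DTW → S_DIF → S_TRL → S_TORB →
  S_DIVB → ∀ (e1 e2 e3 : ℤ), e1 ≠ e2 → e1 ≠ e3 → e2 ≠ e3 → Many ℚ_[2] 8 e1 e2 e3 ∧
    ∀ (p : ℕ) [Fact p.Prime], Many ℚ_[p] 4 e1 e2 e3

/-- GK-LOCR: the real points. -/
def S_LOCR : Prop := ∀ (e1 e2 e3 : ℤ), e1 ≠ e2 → e1 ≠ e3 → e2 ≠ e3 → Many ℝ 2 e1 e2 e3

/-! ### The group of the local conditions -/

/-- GK-APX: approximation. -/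
def S_APX : Prop := S_GEN → S_LAB → ∀ (b : Finset ℕ) (r : ℕ) (g : Fin r → ℤ), Gen b g →
  ∀ (t : ℤ) (s : ℕ → ℤ), t ≠ 0 → (∀ p, s p ≠ 0) → ∃ (x : Gr r) (u : ℕ), u.Coprime (MM b) ∧
    IsSquare ((t * (rep g x * u) : ℤ) : ℝ) ∧
    ∀ (p : ℕ) [Fact p.Prime], p ∣ MM b → IsSquare ((s p * (rep g x * u) : ℤ) : ℚ_[p])

/-- GK-CNTW: the number of the elements. -/
def S_CNTW : Prop := S_GEN → S_LAB → S_LCG → S_APX → ∀ (b : Finset ℕ) (e1 e2 e3 : ℤ) (r : ℕ)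
  (g : Fin r → ℤ), Gen b g → Crv b e1 e2 e3 → Many ℝ 2 e1 e2 e3 → Many ℚ_[2] 8 e1 e2 e3 →
  (∀ (p : ℕ) [Fact p.Prime], Many ℚ_[p] 4 e1 e2 e3) →
  4 ^ r ≤ Nat.card {X : Hr r // InW b e1 e2 e3 g X}

/-- GK-MAXW: a large subgroup is maximal. -/
def S_MAXW : Prop := ∀ (r : ℕ) (D : Par r), (∀ X ∈ D.W, qS D X = 0) → 4 ^ r ≤ Nat.card D.W →
  ∀ Y, (∀ X ∈ D.W, bS D X Y = 0) → Y ∈ D.W

/-- GK-SUR: every solution is in the 2-Selmer group. -/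
def S_SUR : Prop := S_SUB → S_GEN → S_LAB → S_LCG → S_GOOD → S_UNR → S_RAM →
  ∀ (b : Finset ℕ) (e1 e2 e3 : ℤ) (r : ℕ) (g : Fin r → ℤ), Gen b g → Crv b e1 e2 e3 →
  ∀ W : AddSubgroup (Hr r), (∀ X, X ∈ W → InW b e1 e2 e3 g X) →
  ∀ d : ℕ, Squarefree d → d.Coprime (MM b) → lam g d = 0 →
  (SelG (d * e1) (d * e2) (d * e3)).Finite →
    {x | Sol (PD g e1 e2 e3 W) (lam g) nr d.primeFactors x}.ncard ≤
      (SelG (d * e1) (d * e2) (d * e3)).ncard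

end Pool.Agent.N869.GK.X
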